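import Mathlib

/-!
MP_3827cc (Amdeberhan), Q1: the identity `A_N(lambda) = B_N(lambda)` fails.  For `n = 8`,
`lambda = (5,3)` and `N = 3` one has `A_3 = 4` and `B_3 = 8`.

Irreducible characters of symmetric groups are given by Frobenius' character formula
`chi^mu_nu = [x^(mu+delta)] a_delta p_nu` in `l(mu)` variables.
-/

namespace Pool.Agent.Results.MP_3827cc_co.NotEqual

open MvPolynomial

/-- `l` is a partition of `m`, written as the weakly decreasing list of its (positive) parts. -/
def IsPartition (m : ℕ) (l : List ℕ) : Prop :=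
  l.Pairwise (fun a b => b ≤ a) ∧ (∀ a ∈ l, 0 < a) ∧ l.sum = m

/-- The alternant `a_delta(x_1,...,x_k) = det (x_i ^ (k - j))`. -/
noncomputable def alt (k : ℕ) : MvPolynomial (Fin k) ℤ :=
  Matrix.det (Matrix.of fun i j : Fin k =>
    (MvPolynomial.X i : MvPolynomial (Fin k) ℤ) ^ (k - 1 - (j : ℕ)))

/-- The product of power sums `p_nu(x_1,...,x_k)`. -/
noncomputable def pprod (k : ℕ) (nu : List ℕ) : MvPolynomial (Fin k) ℤ :=
  (nu.map fun a => MvPolynomial.psum (Fin k) ℤ a).prod

/-- Frobenius' formula: the value on permutations of cycle type `nu` of the irreducible character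
indexed by the partition `mu` is the coefficient of `x^(mu+delta)` in `a_delta p_nu`, in
`k = l(mu)` variables. -/
noncomputable def chi (mu nu : List ℕ) : ℤ :=
  MvPolynomial.coeff
    (Finsupp.equivFunOnFinite.symm fun i : Fin mu.length =>
      mu.get i + (mu.length - 1 - (i : ℕ)))
    (alt mu.length * pprod mu.length nu)

/-- The `i`-th part `mu'_i = #{j : mu_j ≥ i}` of the conjugate partition. -/
def conjPart (mu : List ℕ) (i : ℕ) : ℕ := (mu.filter fun a => i ≤ a).length

/-- `R_N(m)`: partitions of `m` with at most `N` parts, all of them even. -/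
def R (N m : ℕ) : Set (List ℕ) :=
  {mu | IsPartition m mu ∧ mu.length ≤ N ∧ ∀ a ∈ mu, Even a}

/-- `R^c_N(m)`: partitions of `m` with at most `N` parts, such that all parts of the conjugate
partition are even. -/
def Rc (N m : ℕ) : Set (List ℕ) :=
  {mu | IsPartition m mu ∧ mu.length ≤ N ∧ ∀ i, 1 ≤ i → Even (conjPart mu i)}

/-- The parts of `lambda~_S`: `lambda_i` is replaced by `2 lambda_i` for `i ∈ S` and by
`lambda_i, lambda_i` for `i ∉ S` (the order of the parts does not matter for `chi mu _`). -/
def doubled (lam : List ℕ) (S : Finset (Fin lam.length)) : List ℕ :=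
  (List.finRange lam.length).flatMap fun i =>
    if i ∈ S then [2 * lam.get i] else [lam.get i, lam.get i]

/-- `A_N(lambda)`. -/
noncomputable def A (N : ℕ) (lam : List ℕ) : ℤ :=
  ∑ S : Finset (Fin lam.length), (-1 : ℤ) ^ (doubled lam S).length *
    ∑ᶠ (mu : List ℕ) (_ : mu ∈ R (2 * N + 1) (2 * lam.sum)), chi mu (doubled lam S)

/-- `B_N(lambda)`. -/
noncomputable def B (N : ℕ) (lam : List ℕ) : ℤ :=
  ∑ S : Finset (Fin lam.length),
    ∑ᶠ (mu : List ℕ) (_ : mu ∈ Rc (2 * N) (2 * lam.sum)), chi mu (doubled lam S)

/-! ### Computing `chi` -/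

/-- coefficients of the alternant, on lists of exponents -/
def altC (e : List ℕ) : ℤ :=
  if (∀ x ∈ e, x < e.length) ∧ e.Nodup then
    ((List.range e.length).map fun i =>
      ((List.range e.length).map fun j =>
        if i < j then (if e.getD j 0 < e.getD i 0 then (1 : ℤ) else -1) else 1).prod).prod
  else 0

def cf : List ℕ → List ℕ → ℤ
  | [], e => altC e
  | a :: nu, e => ((List.range e.length).map fun i =>
      if a ≤ e.getD i 0 then cf nu (e.set i (e.getD i 0 - a)) else 0).sum

lemma list_prod_range (k : ℕ) (f : ℕ → ℤ) :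
    ((List.range k).map f).prod = ∏ i : Fin k, f i := by
  rw [← Finset.prod_range]
  induction k with
  | zero => simp
  | succ n ih => rw [List.range_succ, List.map_append, List.prod_append, ih,
      Finset.prod_range_succ]; simp

lemma list_sum_range (k : ℕ) (f : ℕ → ℤ) :
    ((List.range k).map f).sum = ∑ i : Fin k, f i := by
  rw [← Finset.sum_range]
  induction k with
  | zero => simp
  | succ n ih => rw [List.range_succ, List.map_append, List.sum_append, ih,
      Finset.sum_range_succ]; simp

lemma getD_ofFn {k : ℕ} (f : Fin k → ℕ) (i : Fin k) : (List.ofFn f).getD (i : ℕ) 0 = f i := by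
  rw [List.getD_eq_getElem _ _ (by simp)]
  simp

lemma coeff_alt_eq (k : ℕ) (e : Fin k →₀ ℕ) :
    coeff e (alt k) = altC (List.ofFn fun i => e i) := by
  classical
  have hdet : alt k = ∑ σ : Equiv.Perm (Fin k), Equiv.Perm.sign σ •
      monomial (Finsupp.equivFunOnFinite.symm fun i => k - 1 - ((σ i : Fin k) : ℕ)) (1 : ℤ) := by
    rw [alt, ← Matrix.det_transpose, Matrix.det_apply]
    refine Finset.sum_congr rfl fun σ _ => ?_
    congr 1
    rw [monomial_eq, Finsupp.prod_fintype _ _ (fun i => pow_zero _)]
    simp [Matrix.transpose_apply]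
  have hsum : coeff e (alt k) = ∑ σ : Equiv.Perm (Fin k),
      if (∀ i, k - 1 - ((σ i : Fin k) : ℕ) = e i) then (Equiv.Perm.sign σ : ℤ) else 0 := by
    rw [hdet, coeff_sum]
    refine Finset.sum_congr rfl fun σ _ => ?_
    rw [show (Equiv.Perm.sign σ • monomial
        (Finsupp.equivFunOnFinite.symm fun i => k - 1 - ((σ i : Fin k) : ℕ)) (1 : ℤ))
        = C (Equiv.Perm.sign σ : ℤ) * monomial
        (Finsupp.equivFunOnFinite.symm fun i => k - 1 - ((σ i : Fin k) : ℕ)) (1 : ℤ) from by
          rw [← MvPolynomial.smul_eq_C_mul]; rfl]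
    rw [coeff_C_mul, coeff_monomial]
    by_cases h : ∀ i, k - 1 - ((σ i : Fin k) : ℕ) = e i
    · rw [if_pos h, if_pos (by ext i; exact h i), mul_one]
    · rw [if_neg h, if_neg (fun h' => h fun i => by rw [← h']; rfl), mul_zero]
  rw [hsum]
  by_cases hex : ∃ σ : Equiv.Perm (Fin k), ∀ i, k - 1 - ((σ i : Fin k) : ℕ) = e i
  · obtain ⟨σ, hσ⟩ := hex
    rw [Finset.sum_eq_single σ]
    · rw [if_pos hσ]
      have hlt : ∀ i, e i < k := fun i => by
        have := (σ i).isLt
        rw [← hσ i]; omega
      have hinj : Function.Injective fun i => e i := by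
        intro i j hij
        have h1 : e i = e j := hij
        rw [← hσ i, ← hσ j] at h1
        have := (σ i).isLt
        have := (σ j).isLt
        exact σ.injective (Fin.ext (by omega))
      rw [altC, if_pos ⟨by
        intro x hx
        rw [List.mem_ofFn] at hx
        obtain ⟨i, rfl⟩ := hx
        simpa using hlt i, by
        rw [List.nodup_ofFn]; exact hinj⟩]
      rw [Equiv.Perm.sign_eq_prod_prod_Ioi, List.length_ofFn, list_prod_range]
      push_cast
      refine Finset.prod_congr rfl fun i _ => ?_
      rw [list_prod_range, ← Finset.filter_lt_eq_Ioi, Finset.prod_filter]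
      refine Finset.prod_congr rfl fun j _ => ?_
      rw [getD_ofFn, getD_ofFn]
      have h1 := hσ i
      have h2 := hσ j
      have h3 := (σ i).isLt
      have h4 := (σ j).isLt
      by_cases hij : i < j
      · rw [if_pos hij, if_pos (show (i : ℕ) < j from hij)]
        by_cases hs : σ i < σ j
        · rw [if_pos hs, if_pos (by
            have : ((σ i : Fin k) : ℕ) < σ j := hs
            omega)]
          simp
        · have hne : σ i ≠ σ j := fun h => (ne_of_lt hij) (σ.injective h)
          have hne' : ((σ i : Fin k) : ℕ) ≠ σ j := fun h => hne (Fin.ext h)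
          rw [if_neg hs, if_neg (by
            have : ¬ ((σ i : Fin k) : ℕ) < σ j := hs
            omega)]
          simp
      · rw [if_neg hij, if_neg (show ¬ (i : ℕ) < j from hij)]
    · intro τ _ hτ
      rw [if_neg]
      intro h
      apply hτ
      ext i
      have h1 := hσ i
      have h2 := h i
      have h3 := (σ i).isLt
      have h4 := (τ i).isLt
      omega
    · intro h; exact absurd (Finset.mem_univ _) h
  · rw [Finset.sum_eq_zero, altC, if_neg]
    · rintro ⟨h1, h2⟩
      apply hex
      rw [List.nodup_ofFn] at h2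
      have h1' : ∀ i : Fin k, e i < k := fun i => by
        have := h1 (e i) (by rw [List.mem_ofFn]; exact ⟨i, rfl⟩)
        simpa using this
      let g : Fin k → Fin k := fun i => ⟨k - 1 - e i, by have := i.isLt; omega⟩
      have hg : Function.Injective g := by
        intro i j hij
        apply h2
        have h5 : k - 1 - e i = k - 1 - e j := congrArg Fin.val hij
        have h6 := h1' i
        have h7 := h1' j
        show e i = e j
        omega
      refine ⟨Equiv.ofBijective g (Finite.injective_iff_bijective.mp hg), fun i => ?_⟩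
      have h6 := h1' i
      show k - 1 - (k - 1 - e i) = e i
      omega
    · intro σ _
      rw [if_neg (fun h => hex ⟨σ, h⟩)]

lemma ofFn_set {k : ℕ} (f : Fin k → ℕ) (i : Fin k) (x : ℕ) :
    (List.ofFn f).set (i : ℕ) x = List.ofFn (Function.update f i x) := by
  apply List.ext_getElem
  · simp
  · intro n h1 h2
    rw [List.getElem_set, List.getElem_ofFn, List.getElem_ofFn, Function.update_apply]
    by_cases h : (i : ℕ) = n
    · rw [if_pos h, if_pos (by ext; exact h.symm)]
    · rw [if_neg h, if_neg (fun h' => h (by rw [← h']))]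

lemma coeff_eq (k : ℕ) (nu : List ℕ) : ∀ e : Fin k →₀ ℕ,
    coeff e (alt k * pprod k nu) = cf nu (List.ofFn fun i => e i) := by
  induction nu with
  | nil => intro e; simp [pprod, cf, coeff_alt_eq]
  | cons a nu ih =>
    intro e
    have h1 : alt k * pprod k (a :: nu) = ∑ i : Fin k,
        (alt k * pprod k nu) * monomial (Finsupp.single i a) (1 : ℤ) := by
      rw [pprod, List.map_cons, List.prod_cons, psum, Finset.sum_mul, Finset.mul_sum]
      refine Finset.sum_congr rfl fun i _ => ?_
      rw [X_pow_eq_monomial, pprod]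
      ring
    rw [h1, coeff_sum, cf, List.length_ofFn, list_sum_range]
    refine Finset.sum_congr rfl fun i _ => ?_
    rw [coeff_mul_monomial', getD_ofFn]
    by_cases h : a ≤ e i
    · rw [if_pos h, if_pos (by
        rw [Finsupp.single_le_iff]; exact h), mul_one, ih, ofFn_set]
      congr 1
      apply congrArg
      funext j
      rw [Finsupp.tsub_apply, Function.update_apply]
      by_cases hj : j = i
      · subst hj; simp
      · rw [if_neg hj, Finsupp.single_eq_of_ne hj]; simp
    · rw [if_neg h, if_neg (by rw [Finsupp.single_le_iff]; exact h)]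

/-- computable form of `chi` -/
def cchi (mu nu : List ℕ) : ℤ :=
  cf nu ((List.range mu.length).map fun i => mu.getD i 0 + (mu.length - 1 - i))

lemma chi_eq (mu nu : List ℕ) : chi mu nu = cchi mu nu := by
  rw [chi, coeff_eq, cchi]
  congr 1
  apply List.ext_getElem
  · simp
  · intro n h1 h2
    simp at h2
    simp [h2]

/-! ### Enumerating partitions -/

def pl : ℕ → ℕ → ℕ → List (List ℕ)
  | 0, m, _ => if m = 0 then [[]] else []
  | k + 1, m, mx => if m = 0 then [[]] else
      (List.range (min m mx)).flatMap fun i => (pl k (m - (i + 1)) (i + 1)).map fun l => (i + 1) :: l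

lemma mem_pl (k : ℕ) : ∀ (m mx : ℕ) (l : List ℕ), l ∈ pl k m mx ↔
    (IsPartition m l ∧ l.length ≤ k ∧ ∀ a ∈ l, a ≤ mx) := by
  induction k with
  | zero =>
    intro m mx l
    rw [pl]
    constructor
    · intro h
      split_ifs at h with hm
      · rw [List.mem_singleton] at h
        subst h
        subst hm
        simp [IsPartition]
      · simp at h
    · rintro ⟨⟨_, _, h3⟩, h4, _⟩
      have : l = [] := List.length_eq_zero_iff.mp (Nat.le_zero.mp h4)
      subst this
      simp at h3
      rw [if_pos h3.symm]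
      simp
  | succ k ih =>
    intro m mx l
    rw [pl]
    by_cases hm : m = 0
    · subst hm
      rw [if_pos rfl, List.mem_singleton]
      constructor
      · rintro rfl; simp [IsPartition]
      · rintro ⟨⟨_, h2, h3⟩, _, _⟩
        cases l with
        | nil => rfl
        | cons a t =>
          have := h2 a (by simp)
          simp at h3
          omega
    · rw [if_neg hm]
      simp only [List.mem_flatMap, List.mem_range, List.mem_map, ih]
      constructor
      · rintro ⟨i, hi, t, ⟨⟨h1, h2, h3⟩, h4, h5⟩, rfl⟩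
        refine ⟨⟨?_, ?_, ?_⟩, ?_, ?_⟩
        · rw [List.pairwise_cons]; exact ⟨h5, h1⟩
        · intro a ha
          rcases List.mem_cons.mp ha with rfl | ha
          · omega
          · exact h2 a ha
        · rw [List.sum_cons, h3]; omega
        · simp; omega
        · intro a ha
          rcases List.mem_cons.mp ha with rfl | ha
          · omega
          · have := h5 a ha
            omega
      · rintro ⟨⟨h1, h2, h3⟩, h4, h5⟩
        cases l with
        | nil => simp at h3; exact absurd h3.symm hm
        | cons a t =>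
          rw [List.pairwise_cons] at h1
          have ha := h2 a (by simp)
          have ha' := h5 a (by simp)
          rw [List.sum_cons] at h3
          refine ⟨a - 1, by omega, t, ⟨⟨h1.2, fun b hb => h2 b (by simp [hb]), by omega⟩, ?_, ?_⟩, ?_⟩
          · simp at h4; exact h4
          · intro b hb
            have := h1.1 b hb
            omega
          · congr 1; omega

lemma le_sum {l : List ℕ} {a : ℕ} (h : a ∈ l) : a ≤ l.sum := List.le_sum_of_mem h

def Rl (N m : ℕ) : List (List ℕ) := (pl N m m).filter fun l => l.all fun a => a % 2 == 0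

def Rcl (N m : ℕ) : List (List ℕ) :=
  (pl N m m).filter fun l => (List.range (m + 1)).all fun i => i == 0 || conjPart l i % 2 == 0

lemma R_eq (N m : ℕ) : R N m = ((Rl N m).toFinset : Set (List ℕ)) := by
  ext l
  simp only [R, Rl, Set.mem_ofPred_eq, List.coe_toFinset, List.mem_filter, mem_pl, List.all_eq_true,
    beq_iff_eq, ← Nat.even_iff]
  constructor
  · rintro ⟨h1, h2, h3⟩
    exact ⟨⟨h1, h2, fun a ha => h1.2.2 ▸ le_sum ha⟩, h3⟩
  · rintro ⟨⟨h1, h2, _⟩, h3⟩
    exact ⟨h1, h2, h3⟩

lemma Rc_eq (N m : ℕ) : Rc N m = ((Rcl N m).toFinset : Set (List ℕ)) := by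
  ext l
  simp only [Rc, Rcl, Set.mem_ofPred_eq, List.coe_toFinset, List.mem_filter, mem_pl,
    List.all_eq_true, List.mem_range, Bool.or_eq_true, beq_iff_eq, ← Nat.even_iff]
  constructor
  · rintro ⟨h1, h2, h3⟩
    refine ⟨⟨h1, h2, fun a ha => h1.2.2 ▸ le_sum ha⟩, fun i _ => ?_⟩
    rcases Nat.eq_zero_or_pos i with h | h
    · exact Or.inl h
    · exact Or.inr (h3 i h)
  · rintro ⟨⟨h1, h2, h2'⟩, h3⟩
    refine ⟨h1, h2, fun i hi => ?_⟩
    by_cases hm : i < m + 1
    · rcases h3 i hm with h | h
      · omega
      · exact h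
    · have : conjPart l i = 0 := by
        rw [conjPart, List.length_eq_zero_iff, List.filter_eq_nil_iff]
        intro a ha
        have := h2' a ha
        simp; omega
      rw [this]; exact Even.zero

lemma sumR (N m : ℕ) (nu : List ℕ) (h : (Rl N m).Nodup) :
    ∑ᶠ (mu : List ℕ) (_ : mu ∈ R N m), chi mu nu = ((Rl N m).map fun mu => cchi mu nu).sum := by
  rw [R_eq, finsum_mem_coe_finset, List.sum_toFinset _ h]
  congr 1
  exact List.map_congr_left fun mu _ => chi_eq mu nu

lemma sumRc (N m : ℕ) (nu : List ℕ) (h : (Rcl N m).Nodup) :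
    ∑ᶠ (mu : List ℕ) (_ : mu ∈ Rc N m), chi mu nu = ((Rcl N m).map fun mu => cchi mu nu).sum := by
  rw [Rc_eq, finsum_mem_coe_finset, List.sum_toFinset _ h]
  congr 1
  exact List.map_congr_left fun mu _ => chi_eq mu nu

lemma A_eq (N : ℕ) (lam : List ℕ) (h : (Rl (2 * N + 1) (2 * lam.sum)).Nodup) :
    A N lam = ∑ S : Finset (Fin lam.length), (-1 : ℤ) ^ (doubled lam S).length *
      ((Rl (2 * N + 1) (2 * lam.sum)).map fun mu => cchi mu (doubled lam S)).sum := by
  rw [A]
  exact Finset.sum_congr rfl fun S _ => by rw [sumR _ _ _ h]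

lemma B_eq (N : ℕ) (lam : List ℕ) (h : (Rcl (2 * N) (2 * lam.sum)).Nodup) :
    B N lam = ∑ S : Finset (Fin lam.length),
      ((Rcl (2 * N) (2 * lam.sum)).map fun mu => cchi mu (doubled lam S)).sum := by
  rw [B]
  exact Finset.sum_congr rfl fun S _ => by rw [sumRc _ _ _ h]

/-- Negative answer to MP_3827cc Q1: for the partition `(5,3)` of `8` and `N = 3` one has
`A_3 = 4` and `B_3 = 8`, so the identity `A_N(lambda) = B_N(lambda)` does not hold in general. -/
theorem result :
    (IsPartition 8 [5, 3] ∧ A 3 [5, 3] = 4 ∧ B 3 [5, 3] = 8) ∧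
    ¬ ∀ (n : ℕ) (lam : List ℕ) (N : ℕ), 1 ≤ n → IsPartition n lam → 1 ≤ N → A N lam = B N lam := by
  have hP : IsPartition 8 [5, 3] := by simp [IsPartition]
  have hA : A 3 [5, 3] = 4 := by
    rw [A_eq _ _ (by decide +kernel)]
    decide +kernel
  have hB : B 3 [5, 3] = 8 := by
    rw [B_eq _ _ (by decide +kernel)]
    decide +kernel
  refine ⟨⟨hP, hA, hB⟩, fun h => ?_⟩
  have := h 8 [5, 3] 3 (by norm_num) hP (by norm_num)
  rw [hA, hB] at this
  norm_num at this

end Pool.Agent.Results.MP_3827cc_co.NotEqual
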